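import Mathlib

/-!
# Lipschitz extension into `p`-Banach spaces: definitions

Definitions of `p`-Banach spaces, Lipschitz constants, the `p`-trace, the absolute
`p`-extendability constants and the numbers `S(n, m)`.
-/

namespace Pool.Agent.Lib.MP_4d6431_an

open Filter Topology
open scoped ENNReal

/-- A `p`-Banach space structure on the real vector space `Z`: a `p`-norm `nrm` such that `Z` is
complete for the metric `nrm (x - y) ^ p`. -/
structure PBanach (p : ℝ) (Z : Type) [AddCommGroup Z] [Module ℝ Z] where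
  /-- the `p`-norm -/
  nrm : Z → ℝ
  nonneg : ∀ x, 0 ≤ nrm x
  pos : ∀ x, x ≠ 0 → 0 < nrm x
  smul : ∀ (a : ℝ) (x : Z), nrm (a • x) = |a| * nrm x
  add_le : ∀ x y, nrm (x + y) ^ p ≤ nrm x ^ p + nrm y ^ p
  complete : ∀ u : ℕ → Z,
    (∀ ε > 0, ∃ n₀, ∀ m ≥ n₀, ∀ n ≥ n₀, nrm (u m - u n) ^ p < ε) →
    ∃ z, ∀ ε > 0, ∃ n₀, ∀ n ≥ n₀, nrm (u n - z) ^ p < ε

/-- The Lipschitz constant of a map from a metric space into a `p`-Banach space. -/
noncomputable def lip {p : ℝ} {Z : Type} [AddCommGroup Z] [Module ℝ Z] (P : PBanach p Z)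
    {X : Type} [MetricSpace X] (f : X → Z) : ℝ≥0∞ :=
  ⨆ (x : X) (y : X) (_ : x ≠ y), ENNReal.ofReal (P.nrm (f x - f y) / dist x y)

/-- The `p`-trace of `N ⊆ M`: the infimum of all `C ∈ (0, ∞]` such that every Lipschitz map `f`
from `N` into a `p`-Banach space `Z` extends to a map `g : M → Z` with `Lip g ≤ C Lip f`. -/
noncomputable def trace (p : ℝ) {M : Type} [MetricSpace M] (N : Set M) : ℝ≥0∞ :=
  sInf {C : ℝ≥0∞ | 0 < C ∧ ∀ (Z : Type) [AddCommGroup Z] [Module ℝ Z] (P : PBanach p Z)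
    (f : N → Z), lip P f < ⊤ → ∃ g : M → Z, (∀ x : N, g x = f x) ∧ lip P g ≤ C * lip P f}

/-- The absolute `p`-extendability constant of a metric space `N`: the supremum of the `p`-traces
of `N` in all metric spaces `M` containing it isometrically. -/
noncomputable def absExt (p : ℝ) (N : Type) [MetricSpace N] : ℝ≥0∞ :=
  ⨆ (M : Type) (_ : MetricSpace M) (i : N → M) (_ : Isometry i), trace p (Set.range i)

/-- The absolute `p`-extendability constant for spaces of cardinality at most `n`. -/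
noncomputable def absExtCard (p : ℝ) (n : ℕ) : ℝ≥0∞ :=
  ⨆ (N : Type) (_ : MetricSpace N) (_ : Nonempty N) (_ : Finite N) (_ : Nat.card N ≤ n),
    absExt p N

/-- The number `S(n, m)`: the supremum of `lim_{p → 0} t_p(N, M)` over all metric spaces `M` and
nonempty `N ⊆ M` with at most `n` points such that `M ∖ N` has at most `m` points. -/
noncomputable def S (n m : ℕ) : ℝ≥0∞ :=
  ⨆ (M : Type) (_ : MetricSpace M) (N : Set M) (_ : N.Nonempty) (_ : N.encard ≤ n)
    (_ : Nᶜ.encard ≤ m), limUnder (𝓝[>] (0 : ℝ)) (fun p => trace p N)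

/-! ### Monotonicity in `p` -/

/-- A `p`-Banach space is `q`-Banach for `0 < q ≤ p`. -/
noncomputable def PBanach.mono {p q : ℝ} {Z : Type} [AddCommGroup Z] [Module ℝ Z]
    (P : PBanach p Z) (hq : 0 < q) (hqp : q ≤ p) : PBanach q Z where
  nrm := P.nrm
  nonneg := P.nonneg
  pos := P.pos
  smul := P.smul
  add_le x y := by
    have hp : 0 < p := hq.trans_le hqp
    have key : ∀ z, P.nrm z ^ q = (P.nrm z ^ p) ^ (q / p) := by
      intro z
      rw [← Real.rpow_mul (P.nonneg z)]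
      congr 1
      field_simp
    have hx := Real.rpow_nonneg (P.nonneg x) p
    have hy := Real.rpow_nonneg (P.nonneg y) p
    rw [key (x + y), key x, key y]
    calc (P.nrm (x + y) ^ p) ^ (q / p) ≤ (P.nrm x ^ p + P.nrm y ^ p) ^ (q / p) :=
          Real.rpow_le_rpow (Real.rpow_nonneg (P.nonneg _) p) (P.add_le x y)
            (div_nonneg hq.le hp.le)
      _ ≤ (P.nrm x ^ p) ^ (q / p) + (P.nrm y ^ p) ^ (q / p) :=
          Real.rpow_add_le_add_rpow hx hy (div_nonneg hq.le hp.le) ((div_le_one hp).2 hqp)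
  complete u hu := by
    have hp : 0 < p := hq.trans_le hqp
    have key : ∀ z (ε : ℝ), 0 < ε → (P.nrm z ^ p < ε ↔ P.nrm z ^ q < ε ^ (q / p)) := by
      intro z ε hε
      have h : P.nrm z ^ q = (P.nrm z ^ p) ^ (q / p) := by
        rw [← Real.rpow_mul (P.nonneg z)]
        congr 1
        field_simp
      rw [h, Real.rpow_lt_rpow_iff (Real.rpow_nonneg (P.nonneg z) p) hε.le (div_pos hq hp)]
    obtain ⟨z, hz⟩ := P.complete u (by
      intro ε hε
      obtain ⟨n₀, hn₀⟩ := hu (ε ^ (q / p)) (Real.rpow_pos_of_pos hε _)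
      exact ⟨n₀, fun m hm n hn => (key _ ε hε).2 (hn₀ m hm n hn)⟩)
    refine ⟨z, fun ε hε => ?_⟩
    obtain ⟨n₀, hn₀⟩ := hz (ε ^ (p / q)) (Real.rpow_pos_of_pos hε _)
    refine ⟨n₀, fun n hn => ?_⟩
    have h := (key _ _ (Real.rpow_pos_of_pos hε (p / q))).1 (hn₀ n hn)
    rw [← Real.rpow_mul hε.le] at h
    have h1 : p / q * (q / p) = 1 := by field_simp
    rwa [h1, Real.rpow_one] at h

theorem lip_mono {p q : ℝ} {Z : Type} [AddCommGroup Z] [Module ℝ Z]
    (P : PBanach p Z) (hq : 0 < q) (hqp : q ≤ p) {X : Type} [MetricSpace X] (f : X → Z) :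
    lip (P.mono hq hqp) f = lip P f := rfl

theorem trace_antitone {M : Type} [MetricSpace M] (N : Set M) :
    AntitoneOn (fun p => trace p N) (Set.Ioi (0 : ℝ)) := by
  intro q hq p _ hqp
  apply sInf_le_sInf
  rintro C ⟨hC, h⟩
  refine ⟨hC, fun Z _ _ P f hf => ?_⟩
  exact h Z (P.mono hq hqp) f hf

theorem tendsto_trace {M : Type} [MetricSpace M] (N : Set M) :
    Tendsto (fun p => trace p N) (𝓝[>] (0 : ℝ))
      (𝓝 (limUnder (𝓝[>] (0 : ℝ)) (fun p => trace p N))) := by
  apply tendsto_nhds_limUnder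
  exact ⟨_, (trace_antitone N).tendsto_nhdsGT ⟨⊤, fun _ _ => le_top⟩⟩

theorem le_lip {p : ℝ} {Z : Type} [AddCommGroup Z] [Module ℝ Z] (P : PBanach p Z)
    {X : Type} [MetricSpace X] (f : X → Z) {x y : X} (h : x ≠ y) :
    ENNReal.ofReal (P.nrm (f x - f y) / dist x y) ≤ lip P f :=
  le_iSup_of_le x (le_iSup_of_le y (le_iSup_of_le h le_rfl))

theorem PBanach.nrm_zero {p : ℝ} {Z : Type} [AddCommGroup Z] [Module ℝ Z] (P : PBanach p Z) :
    P.nrm 0 = 0 := by
  have := P.smul 0 0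
  simpa using this

end Pool.Agent.Lib.MP_4d6431_an
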