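import Pool.Agent.Lib.MP_4d6431_an.Basic

/-!
# The lower bound for the `p`-trace as `p → 0`

For `N = {-1, 0, 1}` and `M = N ∪ {i / (m + 1) : 1 ≤ i ≤ m}` the `p`-trace `t_p(N, M)` is eventually
larger than every `c < m + 1`.
-/

namespace Pool.Agent.Lib.MP_4d6431_an

open Filter Topology
open scoped ENNReal

/-- `|a|^p + |b|^p + |a + b|^p`. -/
noncomputable def Q (p : ℝ) (w : ℝ × ℝ) : ℝ := |w.1| ^ p + |w.2| ^ p + |w.1 + w.2| ^ p

theorem Q_nonneg (p : ℝ) (w : ℝ × ℝ) : 0 ≤ Q p w := by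
  unfold Q; positivity

theorem nrm_rpow {p : ℝ} (hp : 0 < p) (w : ℝ × ℝ) :
    ((Q p w / 2) ^ (1 / p)) ^ p = Q p w / 2 := by
  rw [← Real.rpow_mul (div_nonneg (Q_nonneg p w) (by norm_num)), one_div,
    inv_mul_cancel₀ hp.ne', Real.rpow_one]

theorem abs_add_rpow_le {p : ℝ} (hp : 0 < p) (hp1 : p ≤ 1) (a b : ℝ) :
    |a + b| ^ p ≤ |a| ^ p + |b| ^ p :=
  (Real.rpow_le_rpow (abs_nonneg _) (abs_add_le a b) hp.le).trans
    (Real.rpow_add_le_add_rpow (abs_nonneg a) (abs_nonneg b) hp.le hp1)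

theorem Q_add_le {p : ℝ} (hp : 0 < p) (hp1 : p ≤ 1) (v w : ℝ × ℝ) :
    Q p (v + w) ≤ Q p v + Q p w := by
  unfold Q
  have h1 := abs_add_rpow_le hp hp1 v.1 w.1
  have h2 := abs_add_rpow_le hp hp1 v.2 w.2
  have h3 := abs_add_rpow_le hp hp1 (v.1 + v.2) (w.1 + w.2)
  have h4 : (v + w).1 + (v + w).2 = v.1 + v.2 + (w.1 + w.2) := by
    simp only [Prod.fst_add, Prod.snd_add]; ring
  rw [h4]
  simp only [Prod.fst_add, Prod.snd_add]
  linarith

theorem rpow_fst_le_Q (p : ℝ) (w : ℝ × ℝ) : |w.1| ^ p ≤ Q p w := by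
  unfold Q
  have h1 : 0 ≤ |w.2| ^ p := by positivity
  have h2 : 0 ≤ |w.1 + w.2| ^ p := by positivity
  linarith

theorem rpow_snd_le_Q (p : ℝ) (w : ℝ × ℝ) : |w.2| ^ p ≤ Q p w := by
  unfold Q
  have h1 : 0 ≤ |w.1| ^ p := by positivity
  have h2 : 0 ≤ |w.1 + w.2| ^ p := by positivity
  linarith

/-- The `p`-Banach space `ℝ × ℝ` with `‖(a, b)‖ ^ p = (|a|^p + |b|^p + |a + b|^p) / 2`. -/
noncomputable def plane {p : ℝ} (hp : 0 < p) (hp1 : p ≤ 1) : PBanach p (ℝ × ℝ) where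
  nrm w := (Q p w / 2) ^ (1 / p)
  nonneg w := Real.rpow_nonneg (div_nonneg (Q_nonneg p w) (by norm_num)) _
  pos w hw := by
    apply Real.rpow_pos_of_pos
    apply div_pos _ (by norm_num)
    by_cases h1 : w.1 = 0
    · have h2 : w.2 ≠ 0 := fun h => hw (Prod.ext h1 h)
      exact (Real.rpow_pos_of_pos (abs_pos.2 h2) p).trans_le (rpow_snd_le_Q p w)
    · exact (Real.rpow_pos_of_pos (abs_pos.2 h1) p).trans_le (rpow_fst_le_Q p w)
  smul a w := by
    have h : Q p (a • w) / 2 = |a| ^ p * (Q p w / 2) := by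
      unfold Q
      have e : (a • w).1 + (a • w).2 = a * (w.1 + w.2) := by
        simp only [Prod.smul_fst, Prod.smul_snd, smul_eq_mul]; ring
      rw [e]
      simp only [Prod.smul_fst, Prod.smul_snd, smul_eq_mul, abs_mul]
      rw [Real.mul_rpow (abs_nonneg a) (abs_nonneg _), Real.mul_rpow (abs_nonneg a) (abs_nonneg _),
        Real.mul_rpow (abs_nonneg a) (abs_nonneg _)]
      ring
    change (Q p (a • w) / 2) ^ (1 / p) = |a| * (Q p w / 2) ^ (1 / p)
    rw [h, Real.mul_rpow (by positivity) (div_nonneg (Q_nonneg p w) (by norm_num)),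
      ← Real.rpow_mul (abs_nonneg a), mul_one_div_cancel hp.ne', Real.rpow_one]
  add_le v w := by
    rw [nrm_rpow hp, nrm_rpow hp, nrm_rpow hp]
    have := Q_add_le hp hp1 v w
    linarith
  complete u hu := by
    have hu' : ∀ ε > 0, ∃ n₀, ∀ m ≥ n₀, ∀ n ≥ n₀, Q p (u m - u n) / 2 < ε := by
      intro ε hε
      obtain ⟨n₀, h⟩ := hu ε hε
      refine ⟨n₀, fun m hm n hn => ?_⟩
      have := h m hm n hn
      rwa [nrm_rpow hp] at this
    have hc : CauchySeq u := by
      rw [Metric.cauchySeq_iff]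
      intro ε hε
      obtain ⟨n₀, h⟩ := hu' (ε ^ p / 2) (by positivity)
      refine ⟨n₀, fun m hm n hn => ?_⟩
      have h1 := h m hm n hn
      have h2 : Q p (u m - u n) < ε ^ p := by linarith
      have h3 : |(u m - u n).1| < ε := by
        have := (rpow_fst_le_Q p (u m - u n)).trans_lt h2
        exact (Real.rpow_lt_rpow_iff (abs_nonneg _) hε.le hp).1 this
      have h4 : |(u m - u n).2| < ε := by
        have := (rpow_snd_le_Q p (u m - u n)).trans_lt h2
        exact (Real.rpow_lt_rpow_iff (abs_nonneg _) hε.le hp).1 this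
      rw [dist_eq_norm, Prod.norm_def]
      exact max_lt h3 h4
    obtain ⟨z, hz⟩ := cauchySeq_tendsto_of_complete hc
    refine ⟨z, fun ε hε => ?_⟩
    have hlim : Tendsto (fun n => Q p (u n - z) / 2) atTop (𝓝 (Q p (z - z) / 2)) := by
      have hcont : Continuous fun w : ℝ × ℝ => Q p (w - z) / 2 := by
        unfold Q
        have hcr : Continuous fun t : ℝ => |t| ^ p :=
          (Real.continuous_rpow_const hp.le).comp continuous_abs
        have c1 : Continuous fun w : ℝ × ℝ => |(w - z).1| ^ p := hcr.comp (by fun_prop)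
        have c2 : Continuous fun w : ℝ × ℝ => |(w - z).2| ^ p := hcr.comp (by fun_prop)
        have c3 : Continuous fun w : ℝ × ℝ => |(w - z).1 + (w - z).2| ^ p :=
          hcr.comp (by fun_prop)
        exact ((c1.add c2).add c3).div_const 2
      exact (hcont.tendsto z).comp hz
    have h0 : Q p (z - z) / 2 = 0 := by
      simp [Q, Real.zero_rpow hp.ne']
    rw [h0] at hlim
    obtain ⟨n₀, h⟩ := (Filter.eventually_atTop.1 (hlim.eventually_lt_const hε))
    exact ⟨n₀, fun n hn => by rw [nrm_rpow hp]; exact h n hn⟩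

theorem plane_nrm_le_iff {p : ℝ} (hp : 0 < p) (hp1 : p ≤ 1) (w : ℝ × ℝ) {L : ℝ} (hL : 0 ≤ L) :
    (plane hp hp1).nrm w ≤ L ↔ Q p w ≤ 2 * L ^ p := by
  change (Q p w / 2) ^ (1 / p) ≤ L ↔ _
  rw [one_div, Real.rpow_inv_le_iff_of_pos (div_nonneg (Q_nonneg p w) (by norm_num)) hL hp]
  constructor <;> intro h <;> linarith

/-- Vectors of `p`-norm at most `L` have coordinates at most `2 L`. -/
theorem bound_of_Q_le {p : ℝ} (hp : 0 < p) {w : ℝ × ℝ} {L : ℝ} (hL : 0 ≤ L)
    (h : Q p w ≤ 2 * L ^ p) : |w.1| ≤ 2 * L ∧ |w.2| ≤ 2 * L := by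
  have e1 : w.1 = (w.1 + w.2) - w.2 := by ring
  have e2 : w.2 = (w.1 + w.2) - w.1 := by ring
  have key : ∀ A B D : ℝ, 0 ≤ A → 0 ≤ B → 0 ≤ D → A ≤ B + D → A ^ p + B ^ p + D ^ p ≤ 2 * L ^ p →
      A ≤ 2 * L := by
    intro A B D hA hB hD hABD hsum
    by_contra hcon
    rw [not_le] at hcon
    have hA' : L ^ p < A ^ p := Real.rpow_lt_rpow hL (by linarith) hp
    have hB0 : 0 ≤ B ^ p := Real.rpow_nonneg hB p
    have hD0 : 0 ≤ D ^ p := Real.rpow_nonneg hD p
    rcases le_or_gt B L with hBL | hBL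
    · have hDL : L ≤ D := by linarith
      have := Real.rpow_le_rpow hL hDL hp.le
      linarith
    · have := Real.rpow_le_rpow hL hBL.le hp.le
      linarith
  constructor
  · apply key |w.1| |w.2| |w.1 + w.2| (abs_nonneg _) (abs_nonneg _) (abs_nonneg _) _ h
    calc |w.1| = |(w.1 + w.2) - w.2| := by rw [← e1]
      _ ≤ |w.1 + w.2| + |w.2| := abs_sub _ _
      _ = _ := by ring
  · apply key |w.2| |w.1| |w.1 + w.2| (abs_nonneg _) (abs_nonneg _) (abs_nonneg _) _ (by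
      unfold Q at h; linarith)
    calc |w.2| = |(w.1 + w.2) - w.1| := by rw [← e2]
      _ ≤ |w.1 + w.2| + |w.1| := abs_sub _ _
      _ = _ := by ring

section Limit

variable {U : Filter ℝ} [U.NeBot]

theorem tendsto_rpow_one (hU : U ≤ 𝓝[>] (0 : ℝ)) {a : ℝ → ℝ} {A : ℝ} (ha : Tendsto a U (𝓝 A))
    (hA : A ≠ 0) : Tendsto (fun p => |a p| ^ p) U (𝓝 1) := by
  have hp : Tendsto (fun p : ℝ => p) U (𝓝 0) :=
    (tendsto_id.mono_left (hU.trans nhdsWithin_le_nhds))
  have h := Tendsto.rpow ha.abs hp (Or.inl (abs_ne_zero.2 hA))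
  simpa using h

theorem limit_direction (hU : U ≤ 𝓝[>] (0 : ℝ)) {w : ℝ → ℝ × ℝ} {W : ℝ × ℝ}
    (hw : Tendsto w U (𝓝 W)) {L : ℝ} (hL : 0 < L) (h : ∀ᶠ p in U, Q p (w p) ≤ 2 * L ^ p) :
    W.1 = 0 ∨ W.2 = 0 ∨ W.1 + W.2 = 0 := by
  by_contra hcon
  push Not at hcon
  obtain ⟨h1, h2, h3⟩ := hcon
  have hw1 : Tendsto (fun p => (w p).1) U (𝓝 W.1) := (continuous_fst.tendsto W).comp hw
  have hw2 : Tendsto (fun p => (w p).2) U (𝓝 W.2) := (continuous_snd.tendsto W).comp hw
  have t1 := tendsto_rpow_one hU hw1 h1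
  have t2 := tendsto_rpow_one hU hw2 h2
  have t3 := tendsto_rpow_one hU (hw1.add hw2) h3
  have tQ : Tendsto (fun p => Q p (w p)) U (𝓝 (1 + 1 + 1)) := (t1.add t2).add t3
  have tL : Tendsto (fun p : ℝ => 2 * L ^ p) U (𝓝 (2 * 1)) := by
    have := tendsto_rpow_one hU (a := fun _ => L) tendsto_const_nhds hL.ne'
    simp only [abs_of_pos hL] at this
    exact this.const_mul 2
  have := le_of_tendsto_of_tendsto tQ tL h
  norm_num at this

theorem limit_lower (hU : U ≤ 𝓝[>] (0 : ℝ)) {w : ℝ → ℝ × ℝ} {W : ℝ × ℝ}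
    (hw : Tendsto w U (𝓝 W)) {θ κ : ℝ} (hκ : 0 ≤ κ) (hκθ : κ < θ) (hθ : θ < 1)
    (hW : (|W.1| = 1 ∧ |W.2| = 1) ∨ (|W.1| = 1 ∧ |W.1 + W.2| = 1) ∨
      (|W.2| = 1 ∧ |W.1 + W.2| = 1))
    (h : ∀ᶠ p in U, Q p (w p) ≤ 2 * κ ^ p) : False := by
  have hw1 : Tendsto (fun p => |(w p).1|) U (𝓝 |W.1|) := ((continuous_fst.tendsto W).comp hw).abs
  have hw2 : Tendsto (fun p => |(w p).2|) U (𝓝 |W.2|) := ((continuous_snd.tendsto W).comp hw).abs
  have hw3 : Tendsto (fun p => |(w p).1 + (w p).2|) U (𝓝 |W.1 + W.2|) :=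
    (((continuous_fst.tendsto W).comp hw).add ((continuous_snd.tendsto W).comp hw)).abs
  have hpos : ∀ᶠ p in U, 0 < p := hU self_mem_nhdsWithin
  have fin : ∀ p : ℝ, 0 < p → Q p (w p) ≤ 2 * κ ^ p → ¬ (2 * θ ^ p ≤ Q p (w p)) := by
    intro p hp h1 h2
    have : κ ^ p < θ ^ p := Real.rpow_lt_rpow hκ hκθ hp
    linarith
  have hθ0 : 0 ≤ θ := hκ.trans hκθ.le
  have ge : ∀ p : ℝ, 0 < p → ∀ x : ℝ, θ < x → θ ^ p ≤ x ^ p := fun p hp x hx =>
    Real.rpow_le_rpow hθ0 hx.le hp.le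
  rcases hW with ⟨h1, h2⟩ | ⟨h1, h2⟩ | ⟨h1, h2⟩
  · rw [h1] at hw1
    rw [h2] at hw2
    obtain ⟨p, hp, hq, g1, g2⟩ := (hpos.and (h.and ((hw1.eventually_const_lt hθ).and
      (hw2.eventually_const_lt hθ)))).exists
    apply fin p hp hq
    have := ge p hp _ g1
    have := ge p hp _ g2
    have : 0 ≤ |(w p).1 + (w p).2| ^ p := by positivity
    unfold Q
    linarith
  · rw [h1] at hw1
    rw [h2] at hw3
    obtain ⟨p, hp, hq, g1, g2⟩ := (hpos.and (h.and ((hw1.eventually_const_lt hθ).and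
      (hw3.eventually_const_lt hθ)))).exists
    apply fin p hp hq
    have := ge p hp _ g1
    have := ge p hp _ g2
    have : 0 ≤ |(w p).2| ^ p := by positivity
    unfold Q
    linarith
  · rw [h1] at hw2
    rw [h2] at hw3
    obtain ⟨p, hp, hq, g1, g2⟩ := (hpos.and (h.and ((hw2.eventually_const_lt hθ).and
      (hw3.eventually_const_lt hθ)))).exists
    apply fin p hp hq
    have := ge p hp _ g1
    have := ge p hp _ g2
    have : 0 ≤ |(w p).1| ^ p := by positivity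
    unfold Q
    linarith

end Limit

/-- A chain in the plane for the exponent `p` and the constant `c`. -/
def BadChain (m : ℕ) (c p : ℝ) (v : ℕ → ℝ × ℝ) : Prop :=
  v 0 = (0, 0) ∧ v (m + 1) = (1, 0) ∧
  (∀ i ≤ m, Q p (v (i + 1) - v i) ≤ 2 * (c / (m + 1)) ^ p) ∧
  (∀ i ≤ m + 1, Q p (v i - (0, 0)) ≤ 2 * (2 * c) ^ p) ∧
  (∀ i ≤ m + 1, Q p (v i - (1, 0)) ≤ 2 * (2 * c) ^ p) ∧
  (∀ i ≤ m + 1, Q p (v i - (0, 1)) ≤ 2 * (2 * c) ^ p)

/-- **Key lemma**: for `c < m + 1` there is no chain for small `p`. -/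
theorem no_chain (m : ℕ) {c : ℝ} (hc : 0 < c) (hcm : c < m + 1) :
    ∀ᶠ p in 𝓝[>] (0 : ℝ), ¬ ∃ v, BadChain m c p v := by
  by_contra hcon
  rw [Filter.not_eventually] at hcon
  have hcon' : ∃ᶠ p in 𝓝[>] (0 : ℝ), p ∈ {p | ∃ v, BadChain m c p v} := by
    refine hcon.mono fun p hp => ?_
    exact not_not.1 hp
  have hne : (𝓝[>] (0 : ℝ) ⊓ 𝓟 {p | ∃ v, BadChain m c p v}).NeBot :=
    Filter.frequently_mem_iff_neBot.1 hcon'
  obtain ⟨v, hv⟩ : ∃ v : ℝ → ℕ → ℝ × ℝ, ∀ p ∈ {p | ∃ v, BadChain m c p v},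
      BadChain m c p (v p) := by
    classical
    refine ⟨fun p => if h : ∃ v, BadChain m c p v then h.choose else fun _ => 0, fun p hp => ?_⟩
    simp only
    have hp' : ∃ v, BadChain m c p v := hp
    rw [dif_pos hp']
    exact hp'.choose_spec
  let U : Ultrafilter ℝ := Ultrafilter.of (𝓝[>] (0 : ℝ) ⊓ 𝓟 {p | ∃ v, BadChain m c p v})
  have hUle : (U : Filter ℝ) ≤ 𝓝[>] (0 : ℝ) ⊓ 𝓟 {p | ∃ v, BadChain m c p v} := Ultrafilter.of_le _
  have hU : (U : Filter ℝ) ≤ 𝓝[>] (0 : ℝ) := hUle.trans inf_le_left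
  have hUbad : ∀ᶠ p in (U : Filter ℝ), BadChain m c p (v p) := by
    have : {p | ∃ v, BadChain m c p v} ∈ (U : Filter ℝ) :=
      (hUle.trans inf_le_right) (mem_principal_self _)
    filter_upwards [this] with p hp using hv p hp
  have hpos : ∀ᶠ p in (U : Filter ℝ), 0 < p := hU self_mem_nhdsWithin
  have hc2 : 0 < 2 * c := by linarith
  -- limits
  have hlim : ∀ i ≤ m + 1, ∃ V : ℝ × ℝ, Tendsto (fun p => v p i) (U : Filter ℝ) (𝓝 V) := by
    intro i hi
    have hK : IsCompact (Metric.closedBall (0 : ℝ × ℝ) (2 * (2 * c))) := isCompact_closedBall _ _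
    have hmem : ((U.map fun p => v p i : Ultrafilter (ℝ × ℝ)) : Filter (ℝ × ℝ)) ≤
        𝓟 (Metric.closedBall (0 : ℝ × ℝ) (2 * (2 * c))) := by
      rw [le_principal_iff]
      change (fun p => v p i) ⁻¹' _ ∈ (U : Filter ℝ)
      filter_upwards [hUbad, hpos] with p hp hp0
      have h := bound_of_Q_le hp0 hc2.le (hp.2.2.2.1 i hi)
      have e : v p i - (0, 0) = v p i := sub_zero _
      rw [e] at h
      rw [Set.mem_preimage, mem_closedBall_zero_iff, Prod.norm_def]
      exact max_le h.1 h.2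
    obtain ⟨V, _, hV⟩ := hK.ultrafilter_le_nhds _ hmem
    exact ⟨V, hV⟩
  choose! V hV using hlim
  have hvert : ∀ i ≤ m + 1, V i = (0, 0) ∨ V i = (1, 0) ∨ V i = (0, 1) := by
    intro i hi
    have hVi := hV i hi
    have l1 := limit_direction (w := fun p => v p i - (0, 0)) hU
      (hVi.sub (tendsto_const_nhds (x := ((0, 0) : ℝ × ℝ)))) hc2
      (by filter_upwards [hUbad] with p hp using hp.2.2.2.1 i hi)
    have l2 := limit_direction (w := fun p => v p i - (1, 0)) hU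
      (hVi.sub (tendsto_const_nhds (x := ((1, 0) : ℝ × ℝ)))) hc2
      (by filter_upwards [hUbad] with p hp using hp.2.2.2.2.1 i hi)
    have l3 := limit_direction (w := fun p => v p i - (0, 1)) hU
      (hVi.sub (tendsto_const_nhds (x := ((0, 1) : ℝ × ℝ)))) hc2
      (by filter_upwards [hUbad] with p hp using hp.2.2.2.2.2 i hi)
    simp only [Prod.fst_sub, Prod.snd_sub, sub_zero] at l1 l2 l3
    rcases hVe : V i with ⟨a, b⟩
    rw [hVe] at l1 l2 l3
    simp only [Prod.mk.injEq] at l1 l2 l3 ⊢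
    by_cases ha : a = 0
    · subst ha
      rcases l2 with h | h | h
      · norm_num at h
      · left; exact ⟨rfl, h⟩
      · right; right; exact ⟨rfl, by linarith⟩
    · by_cases hb : b = 0
      · subst hb
        rcases l3 with h | h | h
        · exact absurd h ha
        · norm_num at h
        · right; left; exact ⟨by linarith, rfl⟩
      · exfalso
        have hab : a + b = 0 := by
          rcases l1 with h | h | h
          · exact absurd h ha
          · exact absurd h hb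
          · exact h
        have ha1 : a = 1 := by
          rcases l2 with h | h | h
          · linarith
          · exact absurd h hb
          · linarith
        rcases l3 with h | h | h
        · exact ha h
        · linarith
        · linarith
  have hV0 : V 0 = (0, 0) := by
    apply tendsto_nhds_unique (hV 0 (Nat.zero_le _))
    apply tendsto_const_nhds.congr'
    filter_upwards [hUbad] with p hp using hp.1.symm
  have hV1 : V (m + 1) = (1, 0) := by
    apply tendsto_nhds_unique (hV (m + 1) le_rfl)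
    apply tendsto_const_nhds.congr'
    filter_upwards [hUbad] with p hp using hp.2.1.symm
  obtain ⟨i, hi, hne'⟩ : ∃ i ≤ m, V i ≠ V (i + 1) := by
    by_contra hall
    push Not at hall
    have : ∀ j ≤ m + 1, V j = V 0 := by
      intro j
      induction j with
      | zero => intro _; rfl
      | succ j ih =>
        intro hj
        rw [← hall j (by omega)]
        exact ih (by omega)
    have h1 := this (m + 1) le_rfl
    rw [hV0, hV1] at h1
    simp at h1
  have hθ : ∃ θ, c / (m + 1) < θ ∧ θ < 1 := by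
    apply exists_between
    rw [div_lt_one (by positivity)]
    exact hcm
  obtain ⟨θ, hθ1, hθ2⟩ := hθ
  have hlimd : Tendsto (fun p => v p (i + 1) - v p i) (U : Filter ℝ) (𝓝 (V (i + 1) - V i)) :=
    (hV (i + 1) (by omega)).sub (hV i (by omega))
  refine limit_lower hU hlimd (by positivity) hθ1 hθ2 ?_
    (by filter_upwards [hUbad] with p hp using hp.2.2.1 i hi)
  rcases hvert i (by omega) with h1 | h1 | h1 <;>
    rcases hvert (i + 1) (by omega) with h2 | h2 | h2 <;>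
    rw [h1, h2] at hne' ⊢ <;> first | exact absurd rfl hne' | norm_num

end Pool.Agent.Lib.MP_4d6431_an
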