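import Pool.Agent.Lib.MP_4d6431_an.Basic

/-!
# Retractions of a metric space onto a subset with few points in the complement

If `N ⊆ M` is finite and nonempty and `M ∖ N` has at most `m` points then there is a retraction of
`M` onto `N` with Lipschitz constant at most `m + 1`. Consequently `t_p(N, M) ≤ m + 1`.
-/

namespace Pool.Agent.Lib.MP_4d6431_an

open Filter Topology
open scoped ENNReal

section Retraction

variable {M : Type} [MetricSpace M] (N : Set M)

/-- `u` is connected to `z` by a chain with steps at most `δ`, all of whose points, except possibly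
the last one, are outside `N`. -/
def Conn (δ : ℝ) (u z : M) : Prop :=
  Relation.ReflTransGen (fun x y => x ∉ N ∧ dist x y ≤ δ) u z

variable {N}

theorem Conn.mono {δ ε : ℝ} (h : δ ≤ ε) {u z : M} (hc : Conn N δ u z) : Conn N ε u z :=
  Relation.ReflTransGen.mono (fun _ _ hxy => ⟨hxy.1, hxy.2.trans h⟩) _ _ hc

theorem Conn.eq_of_mem {δ : ℝ} {u z : M} (hc : Conn N δ u z) (hu : u ∈ N) : z = u := by
  rcases Relation.ReflTransGen.cases_head hc with h | ⟨c, h, _⟩
  · exact h.symm
  · exact absurd hu h.1

/-- The graph used to extract short chains. -/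
def chainGraph (N : Set M) (δ : ℝ) (z z' : M) : SimpleGraph M where
  Adj a b := a ≠ b ∧ dist a b ≤ δ ∧ (a ∉ N ∨ a = z ∨ a = z') ∧ (b ∉ N ∨ b = z ∨ b = z')
  symm := ⟨fun a b h => ⟨h.1.symm, by rw [dist_comm]; exact h.2.1, h.2.2.2, h.2.2.1⟩⟩
  loopless := ⟨fun a h => h.1 rfl⟩

theorem Conn.reachable {δ : ℝ} {u z z' w : M} (hc : Conn N δ u w) (hw : w = z ∨ w = z') :
    (chainGraph N δ z z').Reachable u w := by
  induction hc using Relation.ReflTransGen.head_induction_on with
  | refl => exact SimpleGraph.Reachable.refl _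
  | head h hc ih =>
    rename_i a c
    by_cases hac : a = c
    · subst hac; exact ih
    · refine SimpleGraph.Reachable.trans (SimpleGraph.Adj.reachable ?_) ih
      refine ⟨hac, h.2, Or.inl h.1, ?_⟩
      by_cases hcN : c ∈ N
      · right
        have := Conn.eq_of_mem hc hcN
        rw [← this]; exact hw
      · exact Or.inl hcN

theorem dist_le_walk {δ : ℝ} {z z' : M} {a b : M} (p : (chainGraph N δ z z').Walk a b) :
    dist a b ≤ p.length * δ := by
  induction p with
  | nil => simp
  | cons h p ih =>
    rw [SimpleGraph.Walk.length_cons]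
    push_cast
    have h1 := h.2.1
    calc _ ≤ dist _ _ + dist _ _ := dist_triangle _ _ _
      _ ≤ δ + p.length * δ := add_le_add h1 ih
      _ = _ := by ring

theorem walk_support {δ : ℝ} {z z' : M} {a b : M} (p : (chainGraph N δ z z').Walk a b)
    (ha : a ∉ N ∨ a = z ∨ a = z') : ∀ w ∈ p.support, w ∉ N ∨ w = z ∨ w = z' := by
  induction p with
  | nil => intro w hw; rw [SimpleGraph.Walk.mem_support_nil_iff] at hw; rw [hw]; exact ha
  | cons h p ih =>
    intro w hw
    rw [SimpleGraph.Walk.support_cons, List.mem_cons] at hw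
    rcases hw with rfl | hw
    · exact ha
    · exact ih h.2.2.2 w hw

theorem dist_le_of_reachable {m : ℕ} (hm : Nᶜ.encard ≤ m) {δ : ℝ} (hδ : 0 ≤ δ) {z z' : M}
    (h : (chainGraph N δ z z').Reachable z z') : dist z z' ≤ (m + 1) * δ := by
  classical
  obtain ⟨p, hp⟩ := h.exists_isPath
  have hfin : (Nᶜ).Finite := Set.finite_of_encard_le_coe hm
  have hsub : p.support.toFinset ⊆ hfin.toFinset ∪ {z, z'} := by
    intro w hw
    rw [List.mem_toFinset] at hw
    have := walk_support p (Or.inr (Or.inl rfl)) w hw
    simp only [Finset.mem_union, Set.Finite.mem_toFinset, Set.mem_compl_iff, Finset.mem_insert,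
      Finset.mem_singleton]
    exact this
  have hcard := Finset.card_le_card hsub
  rw [List.toFinset_card_of_nodup hp.support_nodup, SimpleGraph.Walk.length_support] at hcard
  have h1 : hfin.toFinset.card ≤ m := by
    rw [hfin.encard_eq_coe_toFinset_card] at hm
    exact_mod_cast hm
  have h2 : ({z, z'} : Finset M).card ≤ 2 := Finset.card_le_two
  have h3 := Finset.card_union_le hfin.toFinset {z, z'}
  have h4 : p.length ≤ m + 1 := by omega
  calc dist z z' ≤ p.length * δ := dist_le_walk p
    _ ≤ (m + 1) * δ := by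
      apply mul_le_mul_of_nonneg_right _ hδ
      exact_mod_cast h4

/-- The bottleneck distance from `u ∉ N` to `z`. -/
noncomputable def bot (N : Set M) (u z : M) : ℝ :=
  sInf {δ : ℝ | 0 ≤ δ ∧ Conn N δ u z}

theorem bot_set_nonempty {u z : M} (hu : u ∉ N) : {δ : ℝ | 0 ≤ δ ∧ Conn N δ u z}.Nonempty :=
  ⟨dist u z, dist_nonneg, Relation.ReflTransGen.single ⟨hu, le_rfl⟩⟩

theorem bot_le {u z : M} {δ : ℝ} (h0 : 0 ≤ δ) (h : Conn N δ u z) : bot N u z ≤ δ :=
  csInf_le ⟨0, fun _ h => h.1⟩ ⟨h0, h⟩

theorem bot_nonneg {u z : M} : 0 ≤ bot N u z :=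
  Real.sInf_nonneg fun _ h => h.1

/-- In a finite space, chains with steps at most `δ` for all `δ > δ₀` give a chain with steps at
most `δ₀`. -/
theorem conn_of_forall_gt [Finite M] {u z : M} {δ₀ : ℝ} (h : ∀ δ > δ₀, Conn N δ u z) :
    Conn N δ₀ u z := by
  classical
  have := Fintype.ofFinite M
  -- the smallest distance larger than `δ₀`
  obtain ⟨ε, hε, hε'⟩ : ∃ ε > δ₀, ∀ x y : M, dist x y ≤ ε → dist x y ≤ δ₀ := by
    let D : Finset ℝ := (Finset.univ : Finset (M × M)).image (fun q => dist q.1 q.2)
    let D' := D.filter (fun d => δ₀ < d)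
    by_cases hD : D'.Nonempty
    · have hmin := Finset.min'_mem D' hD
      have hlt : δ₀ < D'.min' hD := (Finset.mem_filter.1 hmin).2
      refine ⟨(δ₀ + D'.min' hD) / 2, by linarith, fun x y hxy => ?_⟩
      by_contra hcon
      rw [not_le] at hcon
      have hmem : dist x y ∈ D' := by
        refine Finset.mem_filter.2 ⟨Finset.mem_image.2 ⟨(x, y), Finset.mem_univ _, rfl⟩, hcon⟩
      have := Finset.min'_le D' _ hmem
      linarith
    · refine ⟨δ₀ + 1, by linarith, fun x y _ => ?_⟩
      by_contra hcon
      rw [not_le] at hcon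
      exact hD ⟨dist x y, Finset.mem_filter.2
        ⟨Finset.mem_image.2 ⟨(x, y), Finset.mem_univ _, rfl⟩, hcon⟩⟩
  exact Relation.ReflTransGen.mono (fun x y hxy => ⟨hxy.1, hε' x y hxy.2⟩) _ _ (h ε hε)

theorem conn_bot [Finite M] {u z : M} (hu : u ∉ N) : Conn N (bot N u z) u z := by
  apply conn_of_forall_gt
  intro δ hδ
  obtain ⟨ε, hε, hεδ⟩ := exists_lt_of_csInf_lt (bot_set_nonempty (z := z) hu) hδ
  exact hε.2.mono hεδ.le

/-- If `u, v ∉ N` are closer than the bottleneck distance from `u` to `z`, then `v` has the same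
bottleneck distance to `z`. -/
theorem bot_le_max [Finite M] {u v z : M} (hu : u ∉ N) (hv : v ∉ N) :
    bot N u z ≤ max (dist u v) (bot N v z) := by
  apply bot_le (le_max_of_le_left dist_nonneg)
  refine Relation.ReflTransGen.head ⟨hu, le_max_left _ _⟩ ?_
  exact (conn_bot hv).mono (le_max_right _ _)

/-- **Retraction lemma.** -/
theorem exists_retraction {m : ℕ} (hN : N.Nonempty) (hNfin : N.Finite) (hm : Nᶜ.encard ≤ m) :
    ∃ r : M → N, (∀ x : N, r x = x) ∧ ∀ x y, dist (r x) (r y) ≤ (m + 1) * dist x y := by
  classical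
  have hfin : Finite M := by
    have h1 : (Nᶜ).Finite := Set.finite_of_encard_le_coe hm
    have h2 : (Set.univ : Set M).Finite := by
      rw [← Set.union_compl_self N]; exact hNfin.union h1
    exact Set.finite_univ_iff.1 h2
  have hNfin' : Finite N := hNfin
  have hNne : Nonempty N := hN.to_subtype
  -- choice of a minimiser depending only on the function
  have hmin : ∀ g : N → ℝ, ∃ z : N, ∀ w : N, g z ≤ g w := fun g => Finite.exists_min g
  choose F hF using hmin
  let r : M → N := fun x => if h : x ∈ N then ⟨x, h⟩ else F (fun z => bot N x z)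
  have hr1 : ∀ (x : M) (h : x ∈ N), r x = ⟨x, h⟩ := fun x h => dif_pos h
  have hr2 : ∀ (x : M) (_ : x ∉ N), r x = F (fun z => bot N x z) := fun x h => dif_neg h
  have hm0 : (0 : ℝ) ≤ m := Nat.cast_nonneg m
  -- case `u ∉ N`, `v ∈ N`
  have caseB : ∀ u v, u ∉ N → v ∈ N → dist (r u) (r v) ≤ (m + 1) * dist u v := by
    intro u v hu hv
    have hle : bot N u (r u) ≤ dist u v := by
      rw [hr2 u hu]
      refine (hF (fun z => bot N u z) ⟨v, hv⟩).trans ?_
      exact bot_le dist_nonneg (Relation.ReflTransGen.single ⟨hu, le_rfl⟩)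
    have hc : Conn N (dist u v) u (r u) := (conn_bot hu).mono hle
    have hcv : Conn N (dist u v) u v := Relation.ReflTransGen.single ⟨hu, le_rfl⟩
    have h1 : (chainGraph N (dist u v) (r u) (r v)).Reachable u (r u) :=
      hc.reachable (Or.inl rfl)
    have h2 : (chainGraph N (dist u v) (r u) (r v)).Reachable u (r v) := by
      rw [hr1 v hv]
      exact hcv.reachable (Or.inr rfl)
    exact dist_le_of_reachable hm dist_nonneg (h1.symm.trans h2)
  refine ⟨r, fun x => hr1 x x.2, fun u v => ?_⟩
  by_cases hu : u ∈ N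
  · by_cases hv : v ∈ N
    · rw [hr1 u hu, hr1 v hv]
      change dist u v ≤ _
      nlinarith [dist_nonneg (x := u) (y := v)]
    · rw [dist_comm (r u), dist_comm u]
      exact caseB v u hv hu
  · by_cases hv : v ∈ N
    · exact caseB u v hu hv
    · -- both outside `N`
      by_cases hlt : dist u v < bot N u (r u)
      · -- then the roots coincide
        have hmu : ∀ z : N, bot N u (r u) ≤ bot N u z := by
          intro z; rw [hr2 u hu]; exact hF (fun z => bot N u z) z
        have heq : (fun z : N => bot N u z) = fun z : N => bot N v z := by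
          funext z
          have h1 := bot_le_max (z := (z : M)) hu hv
          have h2 := bot_le_max (z := (z : M)) hv hu
          have h3 := hmu z
          rw [dist_comm v u] at h2
          have h4 : dist u v < bot N u z := hlt.trans_le h3
          rw [max_eq_right h4.le] at h2
          rcases le_max_iff.1 h1 with h5 | h5
          · exact absurd h5 (not_le.2 h4)
          · exact le_antisymm h5 h2
        have : r u = r v := by rw [hr2 u hu, hr2 v hv, heq]
        rw [this, dist_self]
        positivity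
      · rw [not_lt] at hlt
        have hle : bot N v (r v) ≤ dist u v := by
          have h1 : bot N v (r v) ≤ bot N v (r u) := by
            rw [hr2 v hv]; exact hF (fun z => bot N v z) _
          have h2 := bot_le_max (z := ((r u : N) : M)) hv hu
          rw [dist_comm v u, max_eq_left hlt] at h2
          exact h1.trans h2
        have hcu : Conn N (dist u v) u (r u) := (conn_bot hu).mono hlt
        have hcv : Conn N (dist u v) u (r v) :=
          Relation.ReflTransGen.head ⟨hu, le_rfl⟩ ((conn_bot hv).mono hle)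
        have h1 : (chainGraph N (dist u v) (r u) (r v)).Reachable u (r u) :=
          hcu.reachable (Or.inl rfl)
        have h2 : (chainGraph N (dist u v) (r u) (r v)).Reachable u (r v) :=
          hcv.reachable (Or.inr rfl)
        exact dist_le_of_reachable hm dist_nonneg (h1.symm.trans h2)

end Retraction

/-- If `M ∖ N` has at most `m` points (and `N` is finite and nonempty) then
`t_p(N, M) ≤ m + 1`. -/
theorem trace_le {M : Type} [MetricSpace M] {N : Set M} {m : ℕ} (hN : N.Nonempty)
    (hNfin : N.Finite) (hm : Nᶜ.encard ≤ m) (p : ℝ) : trace p N ≤ m + 1 := by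
  obtain ⟨r, hr, hlip⟩ := exists_retraction hN hNfin hm
  apply sInf_le
  refine ⟨by positivity, fun Z _ _ P f _ => ⟨fun x => f (r x), fun x => congrArg f (hr x), ?_⟩⟩
  refine iSup_le fun x => iSup_le fun y => iSup_le fun hxy => ?_
  have hd : 0 < dist x y := dist_pos.2 hxy
  have hcast : ((m : ℝ≥0∞) + 1) = ENNReal.ofReal (m + 1) := by
    rw [ENNReal.ofReal_add (Nat.cast_nonneg m) zero_le_one, ENNReal.ofReal_natCast,
      ENNReal.ofReal_one]
  change ENNReal.ofReal (P.nrm (f (r x) - f (r y)) / dist x y) ≤ _
  by_cases hrxy : r x = r y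
  · rw [hrxy, sub_self, P.nrm_zero, zero_div, ENNReal.ofReal_zero]
    exact zero_le
  · have hdr : 0 < dist (r x) (r y) := dist_pos.2 hrxy
    have h1 : P.nrm (f (r x) - f (r y)) / dist x y ≤
        (m + 1) * (P.nrm (f (r x) - f (r y)) / dist (r x) (r y)) := by
      rw [div_le_iff₀ hd, mul_assoc, div_mul_eq_mul_div, mul_div_assoc', le_div_iff₀ hdr]
      have := mul_le_mul_of_nonneg_left (hlip x y) (P.nonneg (f (r x) - f (r y)))
      nlinarith
    calc ENNReal.ofReal (P.nrm (f (r x) - f (r y)) / dist x y)
        ≤ ENNReal.ofReal ((m + 1) * (P.nrm (f (r x) - f (r y)) / dist (r x) (r y))) :=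
          ENNReal.ofReal_le_ofReal h1
      _ = (m + 1) * ENNReal.ofReal (P.nrm (f (r x) - f (r y)) / dist (r x) (r y)) := by
          rw [ENNReal.ofReal_mul (by positivity), hcast]
      _ ≤ (m + 1) * lip P f := by
          gcongr
          exact le_lip P f hrxy

end Pool.Agent.Lib.MP_4d6431_an
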