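import Pool.Agent.Lib.MP_4d6431_an.Retraction
import Pool.Agent.Lib.MP_4d6431_an.Lower

/-!
# The space `{-1} ∪ {i / (m + 1) : 0 ≤ i ≤ m + 1}` and the final estimates
-/

namespace Pool.Agent.Lib.MP_4d6431_an

open Filter Topology
open scoped ENNReal

/-- The subset `{-1} ∪ {i / (m + 1) : 0 ≤ i ≤ m + 1}` of the real line. -/
def T (m : ℕ) : Set ℝ := {x | x = -1 ∨ ∃ i : ℕ, i ≤ m + 1 ∧ x = i / (m + 1)}

/-- The three-point subset `{-1, 0, 1}` of `T m`. -/
def T₀ (m : ℕ) : Set (T m) := {x | (x : ℝ) = -1 ∨ (x : ℝ) = 0 ∨ (x : ℝ) = 1}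

/-- The point `-1`. -/
def neg (m : ℕ) : T m := ⟨-1, Or.inl rfl⟩

/-- The point `i / (m + 1)`. -/
noncomputable def pt (m i : ℕ) (hi : i ≤ m + 1) : T m := ⟨i / (m + 1), Or.inr ⟨i, hi, rfl⟩⟩

theorem T₀_nonempty (m : ℕ) : (T₀ m).Nonempty := ⟨neg m, Or.inl rfl⟩

theorem T₀_encard (m : ℕ) : (T₀ m).encard ≤ 3 := by
  have h : (Subtype.val '' (T₀ m)) ⊆ {(-1 : ℝ), 0, 1} := by
    rintro _ ⟨x, hx, rfl⟩
    rcases hx with h | h | h <;> simp [h]
  have h1 : (T₀ m).encard = (Subtype.val '' (T₀ m)).encard :=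
    (Subtype.val_injective.encard_image _).symm
  rw [h1]
  refine (Set.encard_le_encard h).trans ?_
  refine (Set.encard_insert_le _ _).trans ?_
  have := (Set.encard_insert_le ({1} : Set ℝ) 0)
  rw [Set.encard_singleton] at this
  calc ({0, 1} : Set ℝ).encard + 1 ≤ (1 + 1) + 1 := by gcongr
    _ = 3 := by norm_num

theorem T₀_compl_encard (m : ℕ) : (T₀ m)ᶜ.encard ≤ m := by
  classical
  have h : (Subtype.val '' (T₀ m)ᶜ) ⊆
      ((Finset.range m).image (fun i : ℕ => ((i + 1 : ℕ) : ℝ) / (m + 1)) : Finset ℝ) := by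
    rintro _ ⟨⟨x, hx⟩, hx', rfl⟩
    simp only [T₀, Set.mem_compl_iff, Set.mem_setOf_eq] at hx'
    push Not at hx'
    obtain ⟨h1, h2, h3⟩ := hx'
    rcases hx with h | ⟨i, hi, rfl⟩
    · exact absurd h h1
    · simp only [Finset.coe_image, Finset.coe_range, Set.mem_image, Set.mem_Iio]
      have hi0 : i ≠ 0 := by
        rintro rfl
        simp at h2
      have him : i ≠ m + 1 := by
        rintro rfl
        apply h3
        push_cast
        exact div_self (by positivity)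
      refine ⟨i - 1, by omega, ?_⟩
      congr 1
      congr 1
      omega
  have h1 : (T₀ m)ᶜ.encard = (Subtype.val '' (T₀ m)ᶜ).encard :=
    (Subtype.val_injective.encard_image _).symm
  rw [h1]
  refine (Set.encard_le_encard h).trans ?_
  rw [Set.encard_coe_eq_coe_finsetCard]
  have := (Finset.card_image_le (s := Finset.range m)
    (f := fun i : ℕ => ((i + 1 : ℕ) : ℝ) / (m + 1)))
  rw [Finset.card_range] at this
  exact_mod_cast this

/-- The map `0 ↦ 0`, `1 ↦ (1, 0)`, `-1 ↦ (0, 1)`. -/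
noncomputable def f₀ (m : ℕ) (x : T₀ m) : ℝ × ℝ :=
  if ((x : T m) : ℝ) = 0 then (0, 0) else if ((x : T m) : ℝ) = 1 then (1, 0) else (0, 1)

theorem lip_f₀ (m : ℕ) {p : ℝ} (hp : 0 < p) (hp1 : p ≤ 1) : lip (plane hp hp1) (f₀ m) ≤ 1 := by
  refine iSup_le fun x => iSup_le fun y => iSup_le fun hxy => ?_
  rw [← ENNReal.ofReal_one]
  apply ENNReal.ofReal_le_ofReal
  have hd : 0 < dist x y := dist_pos.2 hxy
  rw [div_le_one hd, plane_nrm_le_iff hp hp1 _ hd.le]
  have hne : ((x : T m) : ℝ) ≠ ((y : T m) : ℝ) := fun h => hxy (Subtype.ext (Subtype.ext h))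
  have hdist : dist x y = |((x : T m) : ℝ) - ((y : T m) : ℝ)| := rfl
  have z : (0 : ℝ) ^ p = 0 := Real.zero_rpow hp.ne'
  have key : ∀ a b : ℝ, (a = -1 ∨ a = 0 ∨ a = 1) → (b = -1 ∨ b = 0 ∨ b = 1) → a ≠ b →
      Q p ((if a = 0 then ((0, 0) : ℝ × ℝ) else if a = 1 then (1, 0) else (0, 1)) -
        (if b = 0 then ((0, 0) : ℝ × ℝ) else if b = 1 then (1, 0) else (0, 1))) = 2 ∧
      1 ≤ |a - b| := by
    intro a b ha hb hab
    have n1 : (-1 : ℝ) ≠ 1 := by norm_num
    rcases ha with rfl | rfl | rfl <;> rcases hb with rfl | rfl | rfl <;>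
      first
        | exact absurd rfl hab
        | (constructor <;> norm_num [Q, z, n1])
  obtain ⟨h1, h2⟩ := key _ _ x.2 y.2 hne
  rw [hdist]
  unfold f₀
  rw [h1]
  have := Real.one_le_rpow h2 hp.le
  linarith

/-- Every `C` admissible in the definition of the `p`-trace of `T₀ m` in `T m` yields a chain. -/
theorem chain_of_admissible (m : ℕ) {c p : ℝ} (hp : 0 < p) (hp1 : p ≤ 1) (hc : 0 ≤ c)
    {C : ℝ≥0∞} (hC : C ≤ ENNReal.ofReal c)
    (hadm : ∀ (Z : Type) [AddCommGroup Z] [Module ℝ Z] (P : PBanach p Z)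
      (f : T₀ m → Z), lip P f < ⊤ → ∃ g : T m → Z, (∀ x : T₀ m, g x = f x) ∧
        lip P g ≤ C * lip P f) : ∃ v, BadChain m c p v := by
  have hlip := lip_f₀ m hp hp1
  obtain ⟨g, hg, hgl⟩ := hadm (ℝ × ℝ) (plane hp hp1) (f₀ m) (hlip.trans_lt (by simp))
  have hgl' : lip (plane hp hp1) g ≤ ENNReal.ofReal c := by
    refine hgl.trans ?_
    calc C * lip (plane hp hp1) (f₀ m) ≤ ENNReal.ofReal c * 1 := by gcongr
      _ = _ := mul_one _
  have hQ : ∀ x y : T m, ∀ L : ℝ, c * |(x : ℝ) - y| ≤ L → Q p (g x - g y) ≤ 2 * L ^ p := by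
    intro x y L hL
    have hL0 : 0 ≤ L := le_trans (by positivity) hL
    by_cases hxy : x = y
    · subst hxy
      rw [sub_self]
      have z : (0 : ℝ) ^ p = 0 := Real.zero_rpow hp.ne'
      have : Q p 0 = 0 := by simp [Q, z]
      rw [this]; positivity
    · have hd : 0 < dist x y := dist_pos.2 hxy
      have h := (le_lip (plane hp hp1) g hxy).trans hgl'
      rw [ENNReal.ofReal_le_ofReal_iff hc, div_le_iff₀ hd] at h
      have h' : (plane hp hp1).nrm (g x - g y) ≤ L := h.trans hL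
      rwa [plane_nrm_le_iff hp hp1 _ hL0] at h'
  have hm : (0 : ℝ) < m + 1 := by positivity
  let v : ℕ → ℝ × ℝ := fun i => if h : i ≤ m + 1 then g (pt m i h) else 0
  have hv : ∀ i (h : i ≤ m + 1), v i = g (pt m i h) := fun i h => dif_pos h
  have h0 : g (pt m 0 (Nat.zero_le _)) = (0, 0) := by
    have hmem : pt m 0 (Nat.zero_le _) ∈ T₀ m := by
      right; left; simp [pt]
    have := hg ⟨_, hmem⟩
    rw [this]
    simp [f₀, pt]
  have h1 : g (pt m (m + 1) le_rfl) = (1, 0) := by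
    have e : (((m + 1 : ℕ) : ℝ) / (m + 1)) = 1 := by
      push_cast; exact div_self hm.ne'
    have hmem : pt m (m + 1) le_rfl ∈ T₀ m := by
      right; right; exact e
    have := hg ⟨_, hmem⟩
    rw [this]
    unfold f₀ pt
    simp only [e]
    norm_num
  have h2 : g (neg m) = (0, 1) := by
    have hmem : neg m ∈ T₀ m := Or.inl rfl
    have := hg ⟨_, hmem⟩
    rw [this]
    unfold f₀ neg
    norm_num
  have hi01 : ∀ i : ℕ, i ≤ m + 1 → 0 ≤ (i : ℝ) / (m + 1) ∧ (i : ℝ) / (m + 1) ≤ 1 := by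
    intro i hi
    refine ⟨by positivity, ?_⟩
    rw [div_le_one hm]
    exact_mod_cast hi
  refine ⟨v, by rw [hv 0 (Nat.zero_le _), h0], by rw [hv _ le_rfl, h1], ?_, ?_, ?_, ?_⟩
  · intro i hi
    rw [hv _ (by omega), hv _ (by omega)]
    apply hQ
    simp only [pt]
    have : ((i + 1 : ℕ) : ℝ) / (m + 1) - (i : ℝ) / (m + 1) = 1 / (m + 1) := by
      push_cast; field_simp; ring
    rw [this, abs_of_pos (by positivity)]
    rw [mul_one_div]
  · intro i hi
    rw [hv _ hi, ← h0]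
    apply hQ
    simp only [pt]
    obtain ⟨a1, a2⟩ := hi01 i hi
    rw [Nat.cast_zero, zero_div, sub_zero, abs_of_nonneg a1]
    nlinarith
  · intro i hi
    rw [hv _ hi, ← h1]
    apply hQ
    simp only [pt]
    obtain ⟨a1, a2⟩ := hi01 i hi
    have e : (((m + 1 : ℕ) : ℝ) / (m + 1)) = 1 := by
      push_cast; exact div_self hm.ne'
    rw [e]
    have : |(i : ℝ) / (m + 1) - 1| ≤ 2 := by rw [abs_le]; constructor <;> linarith
    nlinarith
  · intro i hi
    rw [hv _ hi, ← h2]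
    apply hQ
    simp only [pt, neg]
    obtain ⟨a1, a2⟩ := hi01 i hi
    have : |(i : ℝ) / (m + 1) - -1| ≤ 2 := by rw [abs_le]; constructor <;> linarith
    nlinarith

theorem eventually_le_trace (m : ℕ) {c : ℝ} (hc : 0 < c) (hcm : c < m + 1) :
    ∀ᶠ p in 𝓝[>] (0 : ℝ), ENNReal.ofReal c ≤ trace p (T₀ m) := by
  have h1 : ∀ᶠ p in 𝓝[>] (0 : ℝ), p ≤ 1 := by
    apply mem_nhdsWithin_of_mem_nhds
    exact Iic_mem_nhds one_pos
  have h0 : ∀ᶠ p in 𝓝[>] (0 : ℝ), 0 < p := self_mem_nhdsWithin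
  filter_upwards [no_chain m hc hcm, h0, h1] with p hno hp hp1
  apply le_sInf
  rintro C ⟨_, hadm⟩
  by_contra hlt
  rw [not_le] at hlt
  exact hno (chain_of_admissible m hp hp1 hc.le hlt.le hadm)

/-- For `N = {-1, 0, 1}` and `M = N ∪ {i / (m + 1)}`, the limit of `t_p(N, M)` as `p → 0` is
`m + 1`. -/
theorem tendsto_trace_T₀ (m : ℕ) :
    Tendsto (fun p => trace p (T₀ m)) (𝓝[>] (0 : ℝ)) (𝓝 ((m : ℝ≥0∞) + 1)) := by
  have hfin : (T₀ m).Finite := Set.finite_of_encard_le_coe (T₀_encard m)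
  apply tendsto_order.2
  constructor
  · intro a ha
    have hcast : ((m : ℝ≥0∞) + 1) = ENNReal.ofReal (m + 1) := by
      rw [ENNReal.ofReal_add (Nat.cast_nonneg m) zero_le_one, ENNReal.ofReal_natCast,
        ENNReal.ofReal_one]
    obtain ⟨b, hab, hb⟩ := exists_between ha
    have hbtop : b ≠ ⊤ := (hb.trans_le le_top).ne
    have hb0 : 0 < b.toReal := by
      rw [ENNReal.toReal_pos_iff]
      exact ⟨lt_of_le_of_lt zero_le hab, lt_top_iff_ne_top.2 hbtop⟩
    have hbm : b.toReal < m + 1 := by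
      rw [hcast, ENNReal.lt_ofReal_iff_toReal_lt hbtop] at hb
      exact hb
    filter_upwards [eventually_le_trace m hb0 hbm] with p hp
    rw [ENNReal.ofReal_toReal hbtop] at hp
    exact hab.trans_le hp
  · intro a ha
    filter_upwards with p
    exact (trace_le (T₀_nonempty m) hfin (T₀_compl_encard m) p).trans_lt ha

end Pool.Agent.Lib.MP_4d6431_an
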